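import Mathlib

/-!
# Skew products over translations of the torus with circle fibres

Diffeomorphisms of `𝕋^(d+1) = 𝕋^d × 𝕋` are written through their lifts to `ℝ^d × ℝ`.
-/

namespace Pool.Agent.H708R2.Closing

/-- The integer vector `(k, l)` of `ℤ^d × ℤ`, as an element of `ℝ^d × ℝ`. -/
def lat {d : ℕ} (k : Fin d → ℤ) (l : ℤ) : (Fin d → ℝ) × ℝ := (fun i => (k i : ℝ), (l : ℝ))

/-- `g` is the (lift of the) fibre component of a `C^r` skew product on `𝕋^d × 𝕋` whose fibre maps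
`x ↦ g (θ, x)` are orientation-preserving circle diffeomorphisms. The integers `m i` are the degrees
of `g` along the base. -/
structure IsFibreMap (d : ℕ) (r : WithTop ℕ∞) (g : (Fin d → ℝ) × ℝ → ℝ) : Prop where
  smooth : ContDiff ℝ r g
  periodic : ∃ m : Fin d → ℤ, ∀ (z : (Fin d → ℝ) × ℝ) (k : Fin d → ℤ) (l : ℤ),
    g (z + lat k l) = g z + (∑ i, (m i : ℝ) * k i) + l
  pos : ∀ (θ : Fin d → ℝ) (x : ℝ), 0 < deriv (fun x => g (θ, x)) x

/-- The (lift of the) skew product `(θ, x) ↦ (θ + ω, g (θ, x))`. -/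
def skew {d : ℕ} (ω : Fin d → ℝ) (g : (Fin d → ℝ) × ℝ → ℝ) (z : (Fin d → ℝ) × ℝ) :
    (Fin d → ℝ) × ℝ := (z.1 + ω, g z)

/-- The point of the torus represented by `z` is a nonwandering point of the torus map with lift
`f`: arbitrarily close to it there are points whose orbit comes back arbitrarily close to it. -/
def NonWandering {d : ℕ} (f : (Fin d → ℝ) × ℝ → (Fin d → ℝ) × ℝ) (z : (Fin d → ℝ) × ℝ) : Prop :=
  ∀ δ : ℝ, 0 < δ → ∃ n : ℕ, 1 ≤ n ∧ ∃ (y : (Fin d → ℝ) × ℝ) (k : Fin d → ℤ) (l : ℤ),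
    dist y z < δ ∧ dist (f^[n] y) (z + lat k l) < δ

/-- The point of the torus represented by `z` is a periodic point of the torus map with lift
`f`. -/
def PeriodicPoint {d : ℕ} (f : (Fin d → ℝ) × ℝ → (Fin d → ℝ) × ℝ) (z : (Fin d → ℝ) × ℝ) : Prop :=
  ∃ n : ℕ, 1 ≤ n ∧ ∃ (k : Fin d → ℤ) (l : ℤ), f^[n] z = z + lat k l

end Pool.Agent.H708R2.Closing
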