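import Pool.Agent.H708R2.Closing.Defs

/-!
# The closing lemma for skew products over translations
-/

open Set Function
open scoped Topology

namespace Pool.Agent.H708R2.Closing

variable {d : ℕ} {r : WithTop ℕ∞} {g : (Fin d → ℝ) × ℝ → ℝ}

/-- The fibre component is globally Lipschitz. -/
lemma lipschitz (hr : 1 ≤ r) (hg : IsFibreMap d r g) :
    ∃ C : ℝ, 0 ≤ C ∧ ∀ z w, |g z - g w| ≤ C * ‖z - w‖ := by
  obtain ⟨m, hm⟩ := hg.periodic
  have h1 : ContDiff ℝ 1 g := hg.smooth.of_le hr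
  have hd : Differentiable ℝ g := h1.differentiable one_ne_zero
  have hper : ∀ z k l, fderiv ℝ g (z + lat k l) = fderiv ℝ g z := by
    intro z k l
    have e : (fun z => g (z + lat k l)) = fun z => g z + ((∑ i, (m i : ℝ) * k i) + l) := by
      funext z
      rw [hm z k l, add_assoc]
    have h2 : fderiv ℝ (fun z => g (z + lat k l)) z = fderiv ℝ g (z + lat k l) :=
      fderiv_comp_add_right (lat k l)
    rw [← h2, e, fderiv_add_const]
  have hc : Continuous (fderiv ℝ g) := h1.continuous_fderiv one_ne_zero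
  set K : Set ((Fin d → ℝ) × ℝ) := Icc (0 : Fin d → ℝ) 1 ×ˢ Icc (0 : ℝ) 1 with hK
  have hKc : IsCompact K := isCompact_Icc.prod isCompact_Icc
  obtain ⟨C, hC⟩ := hKc.exists_bound_of_continuousOn hc.continuousOn
  have hb : ∀ z, ‖fderiv ℝ g z‖ ≤ |C| := by
    intro z
    have e : z = (fun i => Int.fract (z.1 i), Int.fract z.2)
        + lat (fun i => ⌊z.1 i⌋) ⌊z.2⌋ := by
      refine Prod.ext ?_ ?_
      · funext i
        simp [lat]
      · simp [lat]
    rw [e, hper]
    refine (hC _ ⟨?_, ?_⟩).trans (le_abs_self C)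
    · exact ⟨fun i => Int.fract_nonneg _, fun i => (Int.fract_lt_one _).le⟩
    · exact ⟨Int.fract_nonneg _, (Int.fract_lt_one _).le⟩
  refine ⟨|C|, abs_nonneg C, fun z w => ?_⟩
  have := Convex.norm_image_sub_le_of_norm_fderiv_le (f := g) (s := univ) (x := w) (y := z)
    (C := |C|) (fun x _ => hd x) (fun x _ => hb x) convex_univ (mem_univ _) (mem_univ _)
  simpa using this

lemma fibre_mono (hg : IsFibreMap d r g) (θ : Fin d → ℝ) :
    StrictMono fun x => g (θ, x) := by
  exact strictMono_of_deriv_pos (hg.pos θ)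

/-- Base component of iterates. -/
lemma iterate_fst (ω : Fin d → ℝ) (g : (Fin d → ℝ) × ℝ → ℝ) (z : (Fin d → ℝ) × ℝ) (n : ℕ) :
    ((skew ω g)^[n] z).1 = z.1 + (n : ℝ) • ω := by
  induction n with
  | zero => simp
  | succ n ih =>
    rw [iterate_succ_apply']
    show ((skew ω g)^[n] z).1 + ω = _
    rw [ih]
    push_cast
    rw [add_smul, one_smul, add_assoc]

lemma iterate_snd (ω : Fin d → ℝ) (g : (Fin d → ℝ) × ℝ → ℝ) (z : (Fin d → ℝ) × ℝ) (n : ℕ) :
    ((skew ω g)^[n + 1] z).2 = g (z.1 + (n : ℝ) • ω, ((skew ω g)^[n] z).2) := by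
  rw [iterate_succ_apply', ← iterate_fst ω g z n]
  rfl

lemma iterate_continuous (hg : Continuous g) (ω : Fin d → ℝ) (z : (Fin d → ℝ) × ℝ) (n : ℕ) :
    Continuous fun a : ℝ => (skew ω (fun w => g w + a))^[n] z := by
  induction n with
  | zero => exact continuous_const
  | succ n ih =>
    simp only [iterate_succ_apply']
    exact (ih.fst.add continuous_const).prodMk ((hg.comp ih).add continuous_id)

/-- **Closing lemma** for skew products over translations, by constants. -/
theorem closing (hr : 1 ≤ r) (hg : IsFibreMap d r g) (ω : Fin d → ℝ) (z : (Fin d → ℝ) × ℝ)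
    (hz : NonWandering (skew ω g) z) {ε : ℝ} (hε : 0 < ε) :
    ∃ (β : Fin d → ℝ) (a : ℝ), ‖β‖ < ε ∧ |a| < ε ∧
      PeriodicPoint (skew (ω + β) (fun w => g w + a)) z := by
  obtain ⟨C, hC0, hC⟩ := lipschitz hr hg
  set δ := ε / (4 * C + 4) with hδ
  have hδ0 : 0 < δ := by positivity
  have hεδ : (4 * C + 4) * δ = ε := by
    rw [hδ]
    field_simp
  obtain ⟨n, hn, y, k, l, hy, hyn⟩ := hz δ hδ0
  have hn0 : (0 : ℝ) < n := by exact_mod_cast hn
  set u : ℕ → ℝ := fun j => ((skew ω g)^[j] y).2 with hu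
  -- the base
  have hbase : ‖(n : ℝ) • ω - fun i => (k i : ℝ)‖ < 2 * δ := by
    have h1 : dist (y.1 + (n : ℝ) • ω) (z.1 + fun i => (k i : ℝ)) < δ := by
      have h2 : dist ((skew ω g)^[n] y).1 (z + lat k l).1 ≤ dist ((skew ω g)^[n] y)
          (z + lat k l) := le_max_left _ _
      rw [iterate_fst] at h2
      exact h2.trans_lt hyn
    have h3 : dist y.1 z.1 < δ := (le_max_left _ _).trans_lt hy
    rw [dist_eq_norm] at h1 h3
    have e : (n : ℝ) • ω - (fun i => (k i : ℝ))
        = (y.1 + (n : ℝ) • ω - (z.1 + fun i => (k i : ℝ))) - (y.1 - z.1) := by abel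
    rw [e]
    refine (norm_sub_le _ _).trans_lt ?_
    linarith
  set β : Fin d → ℝ := (n : ℝ)⁻¹ • ((fun i => (k i : ℝ)) - (n : ℝ) • ω) with hβ
  have hnβ : (n : ℝ) • β = (fun i => (k i : ℝ)) - (n : ℝ) • ω := by
    rw [hβ, smul_smul, mul_inv_cancel₀ hn0.ne', one_smul]
  have hjβ : ∀ j : ℕ, j ≤ n → ‖(j : ℝ) • β‖ ≤ 2 * δ := by
    intro j hj
    have h1 : ‖(j : ℝ) • β‖ ≤ ‖(n : ℝ) • β‖ := by
      have e : ∀ i : ℕ, ‖(i : ℝ) • β‖ = (i : ℝ) * ‖β‖ := fun i => by
        rw [norm_smul, Real.norm_natCast]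
      rw [e, e]
      have h2 : (j : ℝ) ≤ n := by exact_mod_cast hj
      exact mul_le_mul_of_nonneg_right h2 (norm_nonneg β)
    refine h1.trans ?_
    rw [hnβ, norm_sub_rev]
    exact hbase.le
  have hβε : ‖β‖ < ε := by
    have h1 := hjβ 1 hn
    rw [Nat.cast_one, one_smul] at h1
    have : 2 * δ < (4 * C + 4) * δ := by nlinarith
    linarith
  have hclose : ∀ j : ℕ, j ≤ n → ∀ x, |g (z.1 + (j : ℝ) • (ω + β), x) - g (y.1 + (j : ℝ) • ω, x)|
      ≤ C * (3 * δ) := by
    intro j hj x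
    refine (hC _ _).trans (mul_le_mul_of_nonneg_left ?_ hC0)
    rw [Prod.mk_sub_mk, sub_self, Prod.norm_mk, norm_zero]
    refine max_le ?_ (by positivity)
    have e : z.1 + (j : ℝ) • (ω + β) - (y.1 + (j : ℝ) • ω) = (j : ℝ) • β - (y.1 - z.1) := by
      rw [smul_add]; abel
    rw [e]
    have h3 : dist y.1 z.1 < δ := (le_max_left _ _).trans_lt hy
    rw [dist_eq_norm] at h3
    refine (norm_sub_le _ _).trans ?_
    have := hjβ j hj
    linarith
  set v : ℝ → ℕ → ℝ := fun a j => ((skew (ω + β) (fun w => g w + a))^[j] z).2 with hv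
  have hv0 : ∀ a, v a 0 = z.2 := fun a => rfl
  have hvs : ∀ a j, v a (j + 1) = g (z.1 + (j : ℝ) • (ω + β), v a j) + a := fun a j =>
    iterate_snd (ω + β) (fun w => g w + a) z j
  have hus : ∀ j, u (j + 1) = g (y.1 + (j : ℝ) • ω, u j) := fun j => iterate_snd ω g y j
  have hzy : |z.2 - y.2| ≤ δ := by
    have h3 : dist y.2 z.2 < δ := (le_max_right _ _).trans_lt hy
    rw [Real.dist_eq, abs_sub_comm] at h3
    exact h3.le
  set A := (4 * C + 1) * δ with hA
  have hA0 : 0 < A := by positivity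
  have hAε : A < ε := by
    rw [hA]
    nlinarith
  -- comparison from above
  have hup : ∀ j : ℕ, j < n → u (j + 1) + δ ≤ v A (j + 1) := by
    intro j
    induction j with
    | zero =>
      intro _
      rw [hvs, hus, hv0]
      have h1 := abs_le.1 (hclose 0 (Nat.zero_le _) z.2)
      have h2 : |g (y.1 + ((0 : ℕ) : ℝ) • ω, z.2) - g (y.1 + ((0 : ℕ) : ℝ) • ω, u 0)| ≤ C * δ := by
        refine (hC _ _).trans (mul_le_mul_of_nonneg_left ?_ hC0)
        rw [Prod.mk_sub_mk, sub_self, Prod.norm_mk, norm_zero]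
        exact max_le (by positivity) (by simpa [hu] using hzy)
      have h2' := abs_le.1 h2
      rw [hA]
      linarith [h1.1, h2'.1]
    | succ j ih =>
      intro hj
      rw [hvs, hus]
      have h1 := abs_le.1 (hclose (j + 1) hj.le (v A (j + 1)))
      have h2 : g (y.1 + ((j + 1 : ℕ) : ℝ) • ω, u (j + 1))
          ≤ g (y.1 + ((j + 1 : ℕ) : ℝ) • ω, v A (j + 1)) := by
        refine (fibre_mono hg _).monotone ?_
        have := ih (by omega)
        linarith
      have h3 : 0 ≤ C * δ := by positivity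
      rw [hA]
      linarith [h1.1]
  have hdown : ∀ j : ℕ, j < n → v (-A) (j + 1) + δ ≤ u (j + 1) := by
    intro j
    induction j with
    | zero =>
      intro _
      rw [hvs, hus, hv0]
      have h1 := abs_le.1 (hclose 0 (Nat.zero_le _) z.2)
      have h2 : |g (y.1 + ((0 : ℕ) : ℝ) • ω, z.2) - g (y.1 + ((0 : ℕ) : ℝ) • ω, u 0)| ≤ C * δ := by
        refine (hC _ _).trans (mul_le_mul_of_nonneg_left ?_ hC0)
        rw [Prod.mk_sub_mk, sub_self, Prod.norm_mk, norm_zero]
        exact max_le (by positivity) (by simpa [hu] using hzy)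
      have h2' := abs_le.1 h2
      rw [hA]
      linarith [h1.2, h2'.2]
    | succ j ih =>
      intro hj
      rw [hvs, hus]
      have h1 := abs_le.1 (hclose (j + 1) hj.le (v (-A) (j + 1)))
      have h2 : g (y.1 + ((j + 1 : ℕ) : ℝ) • ω, v (-A) (j + 1))
          ≤ g (y.1 + ((j + 1 : ℕ) : ℝ) • ω, u (j + 1)) := by
        refine (fibre_mono hg _).monotone ?_
        have := ih (by omega)
        linarith
      have h3 : 0 ≤ C * δ := by positivity
      rw [hA]
      linarith [h1.2]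
  have hun : |u n - (z.2 + l)| < δ := by
    have h2 : dist ((skew ω g)^[n] y).2 (z + lat k l).2 ≤ dist ((skew ω g)^[n] y)
        (z + lat k l) := le_max_right _ _
    exact h2.trans_lt hyn
  have hun' := abs_lt.1 hun
  obtain ⟨j, rfl⟩ : ∃ j, n = j + 1 := ⟨n - 1, by omega⟩
  have hcont : Continuous fun a => v a (j + 1) :=
    (iterate_continuous (hg.smooth.continuous) (ω + β) z (j + 1)).snd
  have h1 := hup j (by omega)
  have h2 := hdown j (by omega)
  have hmem : z.2 + l ∈ Icc (v (-A) (j + 1)) (v A (j + 1)) := ⟨by linarith, by linarith⟩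
  obtain ⟨a, ha, hav⟩ := intermediate_value_Icc (by linarith : -A ≤ A) hcont.continuousOn hmem
  refine ⟨β, a, hβε, (abs_le.2 ha).trans_lt hAε, j + 1, hn, k, l, ?_⟩
  refine Prod.ext ?_ ?_
  · rw [iterate_fst, smul_add, hnβ]
    funext i
    simp [lat]
  · exact hav

end Pool.Agent.H708R2.Closing
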